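import Pool.Agent.H.MP_287b0d_an.A

set_option autoImplicit false
open Filter Topology Real

namespace Pool.Agent.Results.MP_287b0d_an.No

def X : Set ℝ :=
  {x | ∃ (n : ℕ) (c : Fin n → ℤ), (∀ i, |c i| ≤ 1) ∧ x = ∑ i, (c i : ℝ) * goldenRatio ^ (i : ℕ)}

noncomputable def N (n : ℕ) (x : ℝ) : ℕ :=
  Nat.card {p : (Fin n → Fin 2) × (Fin n → Fin 2) //
    ∑ i, (((p.1 i : ℕ) : ℝ) - ((p.2 i : ℕ) : ℝ)) * goldenRatio ^ (i : ℕ) = x}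

theorem result (lam : ℝ) (hl : 0 < lam) (μ : ℝ → ℝ)
    (hμ : ∀ x ∈ X, Tendsto (fun n => (N n x : ℝ) / lam ^ n) atTop (𝓝 (μ x)))
    (hW : 0 < ∑ᶠ x ∈ X ∩ Set.Icc 0 1, μ x) :
    (∀ t, (X ∩ Set.Icc 0 t).Finite) ∧
    ∃ f : ℝ → ℝ, Continuous f ∧ ∃ ε : ℝ, 0 < ε ∧ ∃ᶠ n : ℕ in atTop,
      ε ≤ |(∑ᶠ x ∈ X ∩ Set.Icc 0 (n : ℝ), μ x * f (Int.fract x)) /
        (∑ᶠ x ∈ X ∩ Set.Icc 0 (n : ℝ), μ x) - ∫ t in (0 : ℝ)..1, f t| := by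
  obtain ⟨ε, h0, h⟩ := Pool.Agent.H.MP_287b0d_an.main hl hμ hW
  refine ⟨Pool.Agent.H.MP_287b0d_an.X_fin, fun t => cos (2 * π * t), by fun_prop, ε, h0,
    h.mono fun n hn => ?_⟩
  have e : ∀ x : ℝ, cos (2 * π * Int.fract x) = cos (2 * π * x) := fun x => by
    rw [Int.fract, mul_sub, mul_comm (2 * π) ((_ : ℤ) : ℝ), cos_sub_int_mul_two_pi]
  have i : ∫ t in (0 : ℝ)..1, cos (2 * π * t) = 0 := by
    rw [intervalIntegral.integral_comp_mul_left (fun t => cos t) (by positivity)]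
    simp
  simp only [e, i, sub_zero]
  exact hn.trans (le_abs_self _)

end Pool.Agent.Results.MP_287b0d_an.No
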